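import Mathlib

/-!
# MP_a018d0 : an upper bound `(1 - exp (-C s^2 / r)) n` for `g(n, r, s)`

Colours are arranged in a `q × q` grid of blocks of `2 h - 1` colours. A vertex receives a cross
(a row and a column of the grid) and an `h`-subset of every block; it may only use colours of its
subsets in the blocks of its cross. Any two vertices share such a colour.
-/

namespace Pool.Agent.Results.MP_a018d0_co.CoveredUpper

open Finset Filter

/-- The vertex `v` is covered by the colour set `S`: it is an endpoint of an edge of `K_n`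
whose colour lies in `S`. (Values of `c` on loops play no role.) -/
def Covered {n r : ℕ} (c : Sym2 (Fin n) → Fin r) (S : Finset (Fin r)) (v : Fin n) : Prop :=
  ∃ u : Fin n, u ≠ v ∧ c s(v, u) ∈ S

/-- `g(n, r, s)`: the largest `m` such that in every `r`-edge colouring of `K_n` some set of `s`
colours covers at least `m` vertices. -/
noncomputable def g (n r s : ℕ) : ℕ :=
  sSup {m : ℕ | ∀ c : Sym2 (Fin n) → Fin r, ∃ S : Finset (Fin r), S.card = s ∧
    m ≤ {v : Fin n | Covered c S v}.ncard}

/-! ### A binomial estimate -/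

lemma choose_bound (h x : ℕ) (hx : 2 * x < h) :
    (2 * h - 1).choose h ≤ (2 * h - 1 - x).choose h * 4 ^ x := by
  induction x with
  | zero => simp
  | succ x ih =>
    have ih' := ih (by omega)
    set m := 2 * h - 1 - (x + 1) with hm
    have hm1 : 2 * h - 1 - x = m + 1 := by omega
    rw [hm1] at ih'
    have hid : m.choose h * (m + 1) = (m + 1).choose h * (m + 1 - h) := Nat.choose_mul_succ_eq m h
    have hineq : m + 1 ≤ 4 * (m + 1 - h) := by omega
    have h4 : (m + 1).choose h ≤ 4 * m.choose h := by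
      apply Nat.le_of_mul_le_mul_right _ (Nat.succ_pos m)
      calc (m + 1).choose h * (m + 1) ≤ (m + 1).choose h * (4 * (m + 1 - h)) :=
            Nat.mul_le_mul_left _ hineq
        _ = 4 * ((m + 1).choose h * (m + 1 - h)) := by ring
        _ = 4 * m.choose h * (m + 1) := by rw [← hid]; ring
    calc (2 * h - 1).choose h ≤ (m + 1).choose h * 4 ^ x := ih'
      _ ≤ 4 * m.choose h * 4 ^ x := Nat.mul_le_mul_right _ h4
      _ = m.choose h * 4 ^ (x + 1) := by rw [pow_succ]; ring

/-! ### Crosses -/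

/-- The cross with centre `a`. -/
def cross {q : ℕ} (a : Fin q × Fin q) : Finset (Fin q × Fin q) :=
  univ.filter (fun p => p.1 = a.1 ∨ p.2 = a.2)

lemma card_cross {q : ℕ} (p : Fin q × Fin q) :
    ((univ : Finset (Fin q × Fin q)).filter (fun a => p ∈ cross a)).card ≤ 2 * q := by
  have hsub : (univ : Finset (Fin q × Fin q)).filter (fun a => p ∈ cross a) ⊆
      (univ.image (fun j : Fin q => (p.1, j))) ∪ (univ.image (fun i : Fin q => (i, p.2))) := by
    rintro ⟨i, j⟩ ha
    simp only [cross, mem_filter, mem_univ, true_and] at ha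
    simp only [mem_union, mem_image, mem_univ, true_and]
    rcases ha with h | h
    · exact Or.inl ⟨j, by rw [h]⟩
    · exact Or.inr ⟨i, by rw [h]⟩
  refine le_trans (card_le_card hsub) (le_trans (card_union_le _ _) ?_)
  have h1 : (univ.image (fun j : Fin q => (p.1, j))).card ≤ q := by
    refine le_trans card_image_le ?_
    rw [card_univ, Fintype.card_fin]
  have h2 : (univ.image (fun i : Fin q => (i, p.2))).card ≤ q := by
    refine le_trans card_image_le ?_
    rw [card_univ, Fintype.card_fin]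
  omega

lemma cross_sum {q : ℕ} (x : Fin q × Fin q → ℕ) :
    ∑ a : Fin q × Fin q, ∑ p ∈ cross a, x p ≤ 2 * q * ∑ p, x p := by
  have h1 : ∑ a : Fin q × Fin q, ∑ p ∈ cross a, x p =
      ∑ p : Fin q × Fin q, ∑ a ∈ univ.filter (fun a => p ∈ cross a), x p := by
    apply Finset.sum_comm'
    intro a p
    simp
  rw [h1, Finset.mul_sum]
  apply Finset.sum_le_sum
  intro p _
  rw [Finset.sum_const, smul_eq_mul]
  exact Nat.mul_le_mul_right _ (card_cross p)

/-- Many crosses avoid the heavy blocks and have small total weight. -/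
lemma good_crosses {q h s K : ℕ} (x : Fin q × Fin q → ℕ) (hx : ∑ p, x p ≤ s)
    (hh : 0 < h) (h1 : 8 * s ≤ q * h) (hK : 16 * s < K * q) :
    q * q ≤ 4 * ((univ : Finset (Fin q × Fin q)).filter
      (fun a => (∀ p ∈ cross a, 2 * x p < h) ∧ ∑ p ∈ cross a, x p ≤ K)).card := by
  classical
  set Good := (univ : Finset (Fin q × Fin q)).filter
      (fun a => (∀ p ∈ cross a, 2 * x p < h) ∧ ∑ p ∈ cross a, x p ≤ K) with hGood
  set B1 := (univ : Finset (Fin q × Fin q)).filter (fun a => ∃ p ∈ cross a, h ≤ 2 * x p) with hB1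
  set B2 := (univ : Finset (Fin q × Fin q)).filter (fun a => K < ∑ p ∈ cross a, x p) with hB2
  have hcover : (univ : Finset (Fin q × Fin q)) ⊆ Good ∪ (B1 ∪ B2) := by
    intro a _
    by_cases c1 : ∃ p ∈ cross a, h ≤ 2 * x p
    · exact mem_union_right _ (mem_union_left _ (by rw [hB1, mem_filter]; exact ⟨mem_univ _, c1⟩))
    · by_cases c2 : K < ∑ p ∈ cross a, x p
      · exact mem_union_right _ (mem_union_right _ (by rw [hB2, mem_filter]; exact ⟨mem_univ _, c2⟩))
      · push Not at c1 c2
        exact mem_union_left _ (by rw [hGood, mem_filter]; exact ⟨mem_univ _, c1, c2⟩)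
  have hcard : q * q ≤ Good.card + (B1.card + B2.card) := by
    have e1 : (univ : Finset (Fin q × Fin q)).card = q * q := by
      rw [card_univ, Fintype.card_prod, Fintype.card_fin]
    rw [← e1]
    exact le_trans (card_le_card hcover) (le_trans (card_union_le _ _)
      (Nat.add_le_add_left (card_union_le _ _) _))
  -- heavy blocks
  have hB1c : B1.card * h ≤ 4 * q * s := by
    set H := (univ : Finset (Fin q × Fin q)).filter (fun p => h ≤ 2 * x p) with hH
    have i1 : H.card * h ≤ 2 * s := by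
      calc H.card * h = ∑ p ∈ H, h := by rw [sum_const, smul_eq_mul]
        _ ≤ ∑ p ∈ H, 2 * x p := Finset.sum_le_sum (fun p hp => (mem_filter.mp hp).2)
        _ ≤ ∑ p, 2 * x p := Finset.sum_le_sum_of_subset (filter_subset _ _)
        _ = 2 * ∑ p, x p := by rw [mul_sum]
        _ ≤ 2 * s := Nat.mul_le_mul_left _ hx
    have i2 : B1.card ≤ H.card * (2 * q) := by
      have hsub : B1 ⊆ H.biUnion (fun p => univ.filter (fun a => p ∈ cross a)) := by
        intro a ha
        obtain ⟨p, hp, hp2⟩ := (mem_filter.mp ha).2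
        rw [mem_biUnion]
        exact ⟨p, mem_filter.mpr ⟨mem_univ _, hp2⟩, mem_filter.mpr ⟨mem_univ _, hp⟩⟩
      refine le_trans (card_le_card hsub) ?_
      refine le_trans card_biUnion_le ?_
      rw [← smul_eq_mul, ← sum_const]
      exact Finset.sum_le_sum (fun p _ => card_cross p)
    calc B1.card * h ≤ H.card * (2 * q) * h := Nat.mul_le_mul_right _ i2
      _ = (H.card * h) * (2 * q) := by ring
      _ ≤ (2 * s) * (2 * q) := Nat.mul_le_mul_right _ i1
      _ = 4 * q * s := by ring
  have hB1' : 2 * B1.card ≤ q * q := by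
    apply Nat.le_of_mul_le_mul_right _ hh
    calc 2 * B1.card * h = 2 * (B1.card * h) := by ring
      _ ≤ 2 * (4 * q * s) := Nat.mul_le_mul_left _ hB1c
      _ = q * (8 * s) := by ring
      _ ≤ q * (q * h) := Nat.mul_le_mul_left _ h1
      _ = q * q * h := by ring
  have hB2c : B2.card * K ≤ 2 * q * s := by
    calc B2.card * K = ∑ a ∈ B2, K := by rw [sum_const, smul_eq_mul]
      _ ≤ ∑ a ∈ B2, ∑ p ∈ cross a, x p := Finset.sum_le_sum (fun a ha => (mem_filter.mp ha).2.le)
      _ ≤ ∑ a, ∑ p ∈ cross a, x p := Finset.sum_le_sum_of_subset (filter_subset _ _)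
      _ ≤ 2 * q * ∑ p, x p := cross_sum x
      _ ≤ 2 * q * s := Nat.mul_le_mul_left _ hx
  have hKpos : 0 < K := by
    rcases Nat.eq_zero_or_pos K with h0 | h0
    · subst h0; omega
    · exact h0
  have hB2' : 8 * B2.card ≤ q * q := by
    apply Nat.le_of_mul_le_mul_right _ hKpos
    calc 8 * B2.card * K = 8 * (B2.card * K) := by ring
      _ ≤ 8 * (2 * q * s) := Nat.mul_le_mul_left _ hB2c
      _ = q * (16 * s) := by ring
      _ ≤ q * (K * q) := Nat.mul_le_mul_left _ hK.le
      _ = q * q * K := by ring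
  omega

/-! ### The colouring -/

/-- The set of vertex types. -/
def types (q h : ℕ) : Finset ((Fin q × Fin q) × (Fin q × Fin q → Finset (Fin (2 * h - 1)))) :=
  univ ×ˢ Fintype.piFinset (fun _ => powersetCard h univ)

lemma card_types (q h : ℕ) :
    (types q h).card = q * q * ((2 * h - 1).choose h) ^ (q * q) := by
  unfold types
  rw [card_product, card_univ, Fintype.card_prod, Fintype.card_fin, Fintype.card_piFinset,
    prod_const, card_univ, Fintype.card_prod, Fintype.card_fin, card_powersetCard, card_univ,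
    Fintype.card_fin]

/-- The types whose colours avoid the set `S'`. -/
def avoid (q h : ℕ) (S' : Finset ((Fin q × Fin q) × Fin (2 * h - 1))) :
    Finset ((Fin q × Fin q) × (Fin q × Fin q → Finset (Fin (2 * h - 1)))) :=
  (types q h).filter (fun θ => ∀ p ∈ cross θ.1, ∀ i ∈ θ.2 p, (p, i) ∉ S')

lemma card_avoid {q h s K : ℕ} (S' : Finset ((Fin q × Fin q) × Fin (2 * h - 1)))
    (hS' : S'.card ≤ s) (hh : 0 < h) (h1 : 8 * s ≤ q * h) (hK : 16 * s < K * q) :
    (types q h).card ≤ 4 * 4 ^ K * (avoid q h S').card := by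
  classical
  let sec : Fin q × Fin q → Finset (Fin (2 * h - 1)) := fun p => univ.filter (fun i => (p, i) ∈ S')
  let x : Fin q × Fin q → ℕ := fun p => (sec p).card
  have hx : ∑ p, x p ≤ s := by
    refine le_trans (le_of_eq ?_) hS'
    rw [Finset.card_eq_sum_card_fiberwise (f := Prod.fst) (t := univ) (fun _ _ => by simp)]
    apply Finset.sum_congr rfl
    intro p _
    apply Finset.card_nbij (fun i => (p, i))
    · intro i hi
      simp only [sec, coe_filter, mem_univ, true_and, Set.mem_ofPred_eq] at hi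
      simp [hi]
    · intro i _ j _ hij
      exact (Prod.mk.inj hij).2
    · rintro ⟨p', i⟩ hi
      simp only [coe_filter, Set.mem_ofPred_eq] at hi
      obtain ⟨h2, rfl⟩ := hi
      exact ⟨i, by simp [sec, h2], rfl⟩
  have hgood := good_crosses x hx hh h1 hK
  set Good := (univ : Finset (Fin q × Fin q)).filter
      (fun a => (∀ p ∈ cross a, 2 * x p < h) ∧ ∑ p ∈ cross a, x p ≤ K) with hGood
  let fam : Fin q × Fin q → Finset (Fin q × Fin q → Finset (Fin (2 * h - 1))) := fun a =>
    Fintype.piFinset (fun p => if p ∈ cross a then powersetCard h (univ \ sec p)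
      else powersetCard h univ)
  have hfam : ∀ a ∈ Good, ((2 * h - 1).choose h) ^ (q * q) ≤ (fam a).card * 4 ^ K := by
    intro a ha
    obtain ⟨_, ha1, ha2⟩ := mem_filter.mp ha
    have e1 : (fam a).card = ∏ p, (if p ∈ cross a then (2 * h - 1 - x p).choose h
        else (2 * h - 1).choose h) := by
      simp only [fam]
      rw [Fintype.card_piFinset]
      apply Finset.prod_congr rfl
      intro p _
      by_cases hp : p ∈ cross a
      · rw [if_pos hp, if_pos hp, card_powersetCard, card_sdiff_of_subset (subset_univ _),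
          card_univ, Fintype.card_fin]
      · rw [if_neg hp, if_neg hp, card_powersetCard, card_univ, Fintype.card_fin]
    have e2 : ((2 * h - 1).choose h) ^ (q * q) = ∏ _p : Fin q × Fin q, (2 * h - 1).choose h := by
      rw [prod_const, card_univ, Fintype.card_prod, Fintype.card_fin]
    have e3 : ∏ p : Fin q × Fin q, (if p ∈ cross a then 4 ^ x p else 1) =
        4 ^ (∑ p ∈ cross a, x p) := by
      rw [← Finset.prod_pow_eq_pow_sum]
      rw [← Finset.prod_filter]
      congr 1
      ext p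
      simp
    calc ((2 * h - 1).choose h) ^ (q * q)
        = ∏ _p : Fin q × Fin q, (2 * h - 1).choose h := e2
      _ ≤ ∏ p, ((if p ∈ cross a then (2 * h - 1 - x p).choose h else (2 * h - 1).choose h) *
            (if p ∈ cross a then 4 ^ x p else 1)) := by
          apply Finset.prod_le_prod'
          intro p _
          by_cases hp : p ∈ cross a
          · rw [if_pos hp, if_pos hp]
            exact choose_bound h (x p) (ha1 p hp)
          · rw [if_neg hp, if_neg hp, mul_one]
      _ = (fam a).card * 4 ^ (∑ p ∈ cross a, x p) := by rw [prod_mul_distrib, e1, e3]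
      _ ≤ (fam a).card * 4 ^ K :=
          Nat.mul_le_mul_left _ (Nat.pow_le_pow_right (by norm_num) ha2)
  have hsub : Good.sigma fam ⊆ (avoid q h S').map
      ⟨fun θ => (⟨θ.1, θ.2⟩ : Σ _ : Fin q × Fin q, (Fin q × Fin q → Finset (Fin (2 * h - 1)))),
        fun θ θ' hθ => by
          simp only [Sigma.mk.injEq, heq_eq_eq] at hθ
          exact Prod.ext hθ.1 hθ.2⟩ := by
    rintro ⟨a, M⟩ ha
    rw [mem_sigma] at ha
    rw [Finset.mem_map]
    refine ⟨(a, M), ?_, rfl⟩
    have hM := ha.2
    simp only [fam, Fintype.mem_piFinset] at hM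
    simp only [avoid, types, mem_filter, mem_product, mem_univ, true_and, Fintype.mem_piFinset]
    constructor
    · intro p
      have := hM p
      by_cases hp : p ∈ cross a
      · rw [if_pos hp] at this
        exact powersetCard_mono (subset_univ _) this
      · rw [if_neg hp] at this
        exact this
    · intro p hp i hi hmem
      have := hM p
      rw [if_pos hp, mem_powersetCard] at this
      have h2 := this.1 hi
      rw [Finset.mem_sdiff] at h2
      apply h2.2
      simp [sec, hmem]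
  have hcount : ∑ a ∈ Good, (fam a).card ≤ (avoid q h S').card := by
    rw [← card_sigma]
    exact le_trans (card_le_card hsub) (le_of_eq (card_map _))
  rw [card_types]
  calc q * q * ((2 * h - 1).choose h) ^ (q * q)
      ≤ 4 * Good.card * ((2 * h - 1).choose h) ^ (q * q) := Nat.mul_le_mul_right _ hgood
    _ = 4 * ∑ _a ∈ Good, ((2 * h - 1).choose h) ^ (q * q) := by
        rw [sum_const, smul_eq_mul]; ring
    _ ≤ 4 * ∑ a ∈ Good, (fam a).card * 4 ^ K :=
        Nat.mul_le_mul_left _ (Finset.sum_le_sum hfam)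
    _ = 4 * 4 ^ K * ∑ a ∈ Good, (fam a).card := by rw [← sum_mul]; ring
    _ ≤ 4 * 4 ^ K * (avoid q h S').card := Nat.mul_le_mul_left _ hcount

/-- Two types share a colour. -/
lemma common_colour {q h : ℕ} (hh : 0 < h)
    (e : Sym2 ((Fin q × Fin q) × (Fin q × Fin q → Finset (Fin (2 * h - 1)))))
    (he : ∀ θ ∈ e, θ ∈ types q h) :
    ∃ z : (Fin q × Fin q) × Fin (2 * h - 1), ∀ θ ∈ e, z.1 ∈ cross θ.1 ∧ z.2 ∈ θ.2 z.1 := by
  classical
  induction e with
  | _ θ θ' =>
    have h1 := he θ (Sym2.mem_mk_left _ _)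
    have h2 := he θ' (Sym2.mem_mk_right _ _)
    simp only [types, mem_product, mem_univ, true_and, Fintype.mem_piFinset,
      mem_powersetCard] at h1 h2
    have h3 := (h1 (θ.1.1, θ'.1.2)).2
    have h4 := (h2 (θ.1.1, θ'.1.2)).2
    have hne : (θ.2 (θ.1.1, θ'.1.2) ∩ θ'.2 (θ.1.1, θ'.1.2)).Nonempty := by
      rw [← card_pos]
      have h5 := card_union_add_card_inter (θ.2 (θ.1.1, θ'.1.2)) (θ'.2 (θ.1.1, θ'.1.2))
      have h6 : (θ.2 (θ.1.1, θ'.1.2) ∪ θ'.2 (θ.1.1, θ'.1.2)).card ≤ 2 * h - 1 := by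
        refine le_trans (card_le_univ _) ?_
        rw [Fintype.card_fin]
      omega
    obtain ⟨i, hi⟩ := hne
    rw [mem_inter] at hi
    refine ⟨((θ.1.1, θ'.1.2), i), ?_⟩
    intro η hη
    rw [Sym2.mem_iff] at hη
    rcases hη with rfl | rfl
    · exact ⟨by simp [cross], hi.1⟩
    · exact ⟨by simp [cross], hi.2⟩

/-- The colouring, for explicit parameters. -/
lemma exists_colouring {q h s K r n : ℕ} (hh : 0 < h) (h1 : 8 * s ≤ q * h)
    (hK : 16 * s < K * q) (hq : 0 < q) (hr : q * q * (2 * h - 1) ≤ r)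
    (hn : (types q h).card ≤ n) :
    ∃ c : Sym2 (Fin n) → Fin r, ∀ S : Finset (Fin r), S.card = s →
      ({v : Fin n | Covered c S v}.ncard : ℝ) ≤ (1 - 1 / (8 * 4 ^ K)) * n := by
  classical
  set N := (types q h).card with hN
  have hNpos : 0 < N := by
    rw [hN, card_types]
    have : 0 < (2 * h - 1).choose h := Nat.choose_pos (by omega)
    positivity
  -- embedding of the colours
  have hcardC : Fintype.card ((Fin q × Fin q) × Fin (2 * h - 1)) ≤ Fintype.card (Fin r) := by
    rw [Fintype.card_prod, Fintype.card_prod, Fintype.card_fin, Fintype.card_fin, Fintype.card_fin]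
    exact hr
  obtain ⟨ι⟩ := Function.Embedding.nonempty_of_card_le hcardC
  let eqv := (types q h).equivFin
  let f : Fin n → (Fin q × Fin q) × (Fin q × Fin q → Finset (Fin (2 * h - 1))) := fun v =>
    (eqv.symm ⟨(v : ℕ) % N, Nat.mod_lt _ hNpos⟩ : types q h)
  have hf : ∀ v, f v ∈ types q h := fun v => (eqv.symm _).2
  have hcol : ∀ e : Sym2 (Fin n), ∃ z : (Fin q × Fin q) × Fin (2 * h - 1),
      ∀ v ∈ e, z.1 ∈ cross (f v).1 ∧ z.2 ∈ (f v).2 z.1 := by
    intro e
    obtain ⟨z, hz⟩ := common_colour hh (Sym2.map f e) (by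
      intro θ hθ
      obtain ⟨v, _, rfl⟩ := Sym2.mem_map.mp hθ
      exact hf v)
    exact ⟨z, fun v hv => hz (f v) (Sym2.mem_map.mpr ⟨v, hv, rfl⟩)⟩
  choose col hcol using hcol
  refine ⟨fun e => ι (col e), ?_⟩
  intro S hS
  set S' : Finset ((Fin q × Fin q) × Fin (2 * h - 1)) := univ.filter (fun z => ι z ∈ S) with hS'def
  have hS' : S'.card ≤ s := by
    rw [← hS]
    apply Finset.card_le_card_of_injOn ι
    · intro z hz
      exact (mem_filter.mp (mem_coe.mp hz)).2
    · intro z _ z' _ hzz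
      exact ι.injective hzz
  have havoid := card_avoid S' hS' hh h1 hK
  rw [← hN] at havoid
  set U := (univ : Finset (Fin n)).filter (fun v => f v ∈ avoid q h S') with hU
  have hUcov : ∀ v ∈ U, ¬ Covered (fun e => ι (col e)) S v := by
    rintro v hv ⟨u, _, hu⟩
    have h2 := (mem_filter.mp hv).2
    have h3 := (mem_filter.mp h2).2
    have h4 := hcol s(v, u) v (Sym2.mem_mk_left _ _)
    have h5 := h3 _ h4.1 _ h4.2
    apply h5
    rw [hS'def, mem_filter]
    exact ⟨mem_univ _, hu⟩
  -- many vertices have an avoiding type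
  have hUcard : (avoid q h S').card * (n / N) ≤ U.card := by
    rw [← card_range (n / N), ← card_product]
    let F : ((Fin q × Fin q) × (Fin q × Fin q → Finset (Fin (2 * h - 1)))) × ℕ → ℕ := fun z =>
      if hz : z.1 ∈ types q h then z.2 * N + (eqv ⟨z.1, hz⟩ : ℕ) else 0
    have hFval : ∀ z ∈ avoid q h S' ×ˢ range (n / N), ∃ hz : z.1 ∈ types q h,
        F z = z.2 * N + (eqv ⟨z.1, hz⟩ : ℕ) := by
      intro z hz
      rw [mem_product] at hz
      have hz1 := (mem_filter.mp hz.1).1
      exact ⟨hz1, by simp only [F, dif_pos hz1]⟩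
    have hFlt : ∀ z ∈ avoid q h S' ×ˢ range (n / N), F z < n := by
      intro z hz
      obtain ⟨hz1, hFz⟩ := hFval z hz
      rw [hFz]
      have h2 : z.2 < n / N := mem_range.mp (mem_product.mp hz).2
      have h3 := (eqv ⟨z.1, hz1⟩).isLt
      have h4 : (z.2 + 1) * N ≤ n := by
        calc (z.2 + 1) * N ≤ (n / N) * N := Nat.mul_le_mul_right _ h2
          _ ≤ n := Nat.div_mul_le_self n N
      have h5 : (z.2 + 1) * N = z.2 * N + N := by ring
      omega
    have hmod : ∀ k m : ℕ, m < N → (k * N + m) % N = m := by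
      intro k m hm
      rw [Nat.mul_comm, Nat.mul_add_mod, Nat.mod_eq_of_lt hm]
    have himg : (avoid q h S' ×ˢ range (n / N)).card ≤ (U.map Fin.valEmbedding).card := by
      apply Finset.card_le_card_of_injOn F
      · intro z hz
        rw [mem_coe] at hz ⊢
        rw [Finset.mem_map]
        refine ⟨⟨F z, hFlt z hz⟩, ?_, rfl⟩
        rw [hU, mem_filter]
        refine ⟨mem_univ _, ?_⟩
        obtain ⟨hz1, hFz⟩ := hFval z hz
        have h2 : f ⟨F z, hFlt z hz⟩ = z.1 := by
          have h3 : F z % N = (eqv ⟨z.1, hz1⟩ : ℕ) := by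
            rw [hFz]
            exact hmod _ _ (eqv ⟨z.1, hz1⟩).isLt
          have h4 : (⟨F z % N, Nat.mod_lt _ hNpos⟩ : Fin N) = eqv ⟨z.1, hz1⟩ := Fin.ext h3
          show ((eqv.symm ⟨F z % N, Nat.mod_lt _ hNpos⟩ : types q h) :
            (Fin q × Fin q) × (Fin q × Fin q → Finset (Fin (2 * h - 1)))) = z.1
          rw [h4, Equiv.symm_apply_apply]
        rw [h2]
        exact (mem_product.mp hz).1
      · intro z hz z' hz' hzz
        rw [mem_coe] at hz hz'
        obtain ⟨hz1, hFz⟩ := hFval z hz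
        obtain ⟨hz1', hFz'⟩ := hFval z' hz'
        rw [hFz, hFz'] at hzz
        have h2 : (eqv ⟨z.1, hz1⟩ : ℕ) = (eqv ⟨z'.1, hz1'⟩ : ℕ) := by
          have e1 := hmod z.2 _ (eqv ⟨z.1, hz1⟩).isLt
          have e2 := hmod z'.2 _ (eqv ⟨z'.1, hz1'⟩).isLt
          rw [← e1, ← e2, hzz]
        have h3 : z.2 * N = z'.2 * N := by omega
        have h4 : z.2 = z'.2 := Nat.eq_of_mul_eq_mul_right hNpos h3
        have h5 : z.1 = z'.1 := by
          have := eqv.injective (Fin.ext h2)
          exact congrArg Subtype.val this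
        exact Prod.ext h5 h4
    rw [card_map] at himg
    exact himg
  -- conclusion
  have hcov : {v : Fin n | Covered (fun e => ι (col e)) S v}.ncard + U.card ≤ n := by
    have h2 : {v : Fin n | Covered (fun e => ι (col e)) S v} ⊆ ((Uᶜ : Finset (Fin n)) : Set (Fin n)) := by
      intro v hv
      rw [mem_coe, mem_compl]
      intro hvU
      exact hUcov v hvU hv
    have h3 := Set.ncard_le_ncard h2 (Finset.finite_toSet _)
    rw [Set.ncard_coe_finset, card_compl, Fintype.card_fin] at h3
    have h4 : U.card ≤ n := by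
      refine le_trans (card_le_univ _) ?_
      rw [Fintype.card_fin]
    omega
  have hcovR : ({v : Fin n | Covered (fun e => ι (col e)) S v}.ncard : ℝ) + U.card ≤ n := by
    exact_mod_cast hcov
  have hUR : (n : ℝ) / (8 * 4 ^ K) ≤ U.card := by
    have i1 : (N : ℝ) ≤ 4 * 4 ^ K * (avoid q h S').card := by exact_mod_cast havoid
    have i2 : (n : ℝ) ≤ 2 * N * ((n / N : ℕ) : ℝ) := by
      have : n ≤ 2 * N * (n / N) := by
        have h2 : 1 ≤ n / N := (Nat.one_le_div_iff hNpos).mpr hn
        have h3 := Nat.div_add_mod n N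
        have h4 := Nat.mod_lt n hNpos
        have h5 : N * 1 ≤ N * (n / N) := Nat.mul_le_mul_left _ h2
        have h6 : 2 * N * (n / N) = N * (n / N) + N * (n / N) := by ring
        omega
      exact_mod_cast this
    have i3 : ((avoid q h S').card : ℝ) * ((n / N : ℕ) : ℝ) ≤ U.card := by exact_mod_cast hUcard
    have i4 : (0 : ℝ) ≤ ((n / N : ℕ) : ℝ) := Nat.cast_nonneg _
    rw [div_le_iff₀ (by positivity)]
    calc (n : ℝ) ≤ 2 * N * ((n / N : ℕ) : ℝ) := i2
      _ ≤ 2 * (4 * 4 ^ K * (avoid q h S').card) * ((n / N : ℕ) : ℝ) := by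
          apply mul_le_mul_of_nonneg_right _ i4
          linarith
      _ = (((avoid q h S').card : ℝ) * ((n / N : ℕ) : ℝ)) * (8 * 4 ^ K) := by ring
      _ ≤ U.card * (8 * 4 ^ K) := mul_le_mul_of_nonneg_right i3 (by positivity)
  have : (1 - 1 / (8 * 4 ^ K)) * (n : ℝ) = n - n / (8 * 4 ^ K) := by ring
  rw [this]
  linarith

/-- The explicit form: `r ≤ s ^ 2` and `64 s ≤ r` suffice. -/
lemma explicit {r s : ℕ} (hs1 : r ≤ s ^ 2) (hs2 : 64 * s ≤ r) (hr : 0 < r) :
    ∀ᶠ n : ℕ in atTop, (g n r s : ℝ) ≤ (1 - Real.exp (-(5000 * (s : ℝ) ^ 2 / r))) * n := by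
  have hs : 0 < s := by
    rcases Nat.eq_zero_or_pos s with h | h
    · subst h; simp at hs1; omega
    · exact h
  set q := r / (64 * s) with hq
  set h := 2048 * s ^ 2 / r with hh
  set K := 16 * s / q + 1 with hK
  have hqpos : 0 < q := Nat.div_pos hs2 (by omega)
  have hhpos : 0 < h := Nat.div_pos (by nlinarith) hr
  have q1 : q * (64 * s) ≤ r := Nat.div_mul_le_self _ _
  have q2 : r < (q + 1) * (64 * s) := by
    have := Nat.lt_div_mul_add (a := r) (b := 64 * s) (by omega)
    calc r < r / (64 * s) * (64 * s) + 64 * s := this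
      _ = (q + 1) * (64 * s) := by rw [← hq]; ring
  have q3 : r < q * (128 * s) := by nlinarith
  have h1 : h * r ≤ 2048 * s ^ 2 := Nat.div_mul_le_self _ _
  have h2 : 2048 * s ^ 2 < (h + 1) * r := by
    have := Nat.lt_div_mul_add (a := 2048 * s ^ 2) (b := r) hr
    calc 2048 * s ^ 2 < 2048 * s ^ 2 / r * r + r := this
      _ = (h + 1) * r := by rw [← hh]; ring
  have h3 : 1024 * s ^ 2 < h * r := by nlinarith
  have c1 : 8 * s ≤ q * h := by
    by_contra hcon
    push Not at hcon
    have e1 : h * r ≤ h * (q * (128 * s)) := Nat.mul_le_mul_left _ q3.le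
    have e2 : h * (q * (128 * s)) = (q * h) * (128 * s) := by ring
    have e3 : (q * h) * (128 * s) ≤ (8 * s) * (128 * s) := Nat.mul_le_mul_right _ hcon.le
    have e4 : (8 * s) * (128 * s) = 1024 * s ^ 2 := by ring
    omega
  have c2 : 16 * s < K * q := by
    have := Nat.lt_div_mul_add (a := 16 * s) (b := q) hqpos
    calc 16 * s < 16 * s / q * q + q := this
      _ = K * q := by rw [hK]; ring
  have c3 : q * q * (2 * h - 1) ≤ r := by
    have e0 : q * q * (2 * h - 1) ≤ q * q * (2 * h) := Nat.mul_le_mul_left _ (by omega)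
    refine le_trans e0 ?_
    have e1 : (q * (64 * s)) * (q * (64 * s)) ≤ r * r := Nat.mul_le_mul q1 q1
    have e2 : (q * q * (2 * h)) * (4096 * s ^ 2) ≤ r * (4096 * s ^ 2) := by
      calc (q * q * (2 * h)) * (4096 * s ^ 2) = 2 * h * ((q * (64 * s)) * (q * (64 * s))) := by ring
        _ ≤ 2 * h * (r * r) := Nat.mul_le_mul_left _ e1
        _ = 2 * r * (h * r) := by ring
        _ ≤ 2 * r * (2048 * s ^ 2) := Nat.mul_le_mul_left _ h1
        _ = r * (4096 * s ^ 2) := by ring
    exact Nat.le_of_mul_le_mul_right e2 (by positivity)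
  have hrR : (0 : ℝ) < r := by exact_mod_cast hr
  have hsR : (0 : ℝ) < s := by exact_mod_cast hs
  have hqR : (0 : ℝ) < q := by exact_mod_cast hqpos
  set y : ℝ := (s : ℝ) ^ 2 / r with hy
  have hy1 : 1 ≤ y := by
    rw [hy, le_div_iff₀ hrR, one_mul]
    exact_mod_cast hs1
  have hKR : (K : ℝ) ≤ 2048 * y + 1 := by
    have e1 : ((16 * s / q : ℕ) : ℝ) ≤ (16 * s : ℝ) / q := by
      have := Nat.cast_div_le (m := 16 * s) (n := q) (α := ℝ)
      push_cast at this
      exact this
    have e2 : (16 * s : ℝ) / q ≤ 2048 * y := by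
      rw [div_le_iff₀ hqR, hy]
      have q3R : (r : ℝ) < q * (128 * s) := by exact_mod_cast q3
      have : 2048 * ((s : ℝ) ^ 2 / r) * q = 16 * s * ((q * (128 * s)) / r) := by
        field_simp
        ring
      rw [this]
      have h5 : 1 ≤ (q * (128 * s)) / (r : ℝ) := by
        rw [le_div_iff₀ hrR, one_mul]; exact q3R.le
      nlinarith
    rw [hK]; push_cast; linarith
  have hexp : Real.exp (-(5000 * y)) ≤ 1 / (8 * 4 ^ K) := by
    have he1 : (2 : ℝ) ≤ Real.exp 1 := by
      have := Real.add_one_le_exp (1 : ℝ); linarith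
    have he2 : (4 : ℝ) ≤ Real.exp 2 := by
      have : Real.exp 2 = Real.exp 1 * Real.exp 1 := by rw [← Real.exp_add]; norm_num
      rw [this]; nlinarith
    have he3 : (8 : ℝ) ≤ Real.exp 3 := by
      have : Real.exp 3 = Real.exp 2 * Real.exp 1 := by rw [← Real.exp_add]; norm_num
      rw [this]; nlinarith
    have he4 : (4 : ℝ) ^ K ≤ Real.exp (2 * K) := by
      calc (4 : ℝ) ^ K ≤ (Real.exp 2) ^ K := pow_le_pow_left₀ (by norm_num) he2 K
        _ = Real.exp (2 * K) := by rw [← Real.exp_nat_mul]; congr 1; ring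
    have he5 : 8 * (4 : ℝ) ^ K ≤ Real.exp (5000 * y) := by
      calc 8 * (4 : ℝ) ^ K ≤ Real.exp 3 * Real.exp (2 * K) :=
            mul_le_mul he3 he4 (by positivity) (Real.exp_pos _).le
        _ = Real.exp (3 + 2 * K) := by rw [← Real.exp_add]
        _ ≤ Real.exp (5000 * y) := Real.exp_le_exp.mpr (by linarith)
    rw [Real.exp_neg, one_div]
    exact inv_anti₀ (by positivity) he5
  have hexp' : Real.exp (-(5000 * (s : ℝ) ^ 2 / r)) ≤ 1 / (8 * 4 ^ K) := by
    have : 5000 * (s : ℝ) ^ 2 / r = 5000 * y := by rw [hy]; ring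
    rw [this]; exact hexp
  filter_upwards [eventually_ge_atTop (types q h).card] with n hn
  obtain ⟨c, hc⟩ := exists_colouring (n := n) hhpos c1 c2 hqpos c3 hn
  have hn0 : (0 : ℝ) ≤ n := Nat.cast_nonneg n
  have hbound : (1 - 1 / (8 * 4 ^ K)) * (n : ℝ) ≤
      (1 - Real.exp (-(5000 * (s : ℝ) ^ 2 / r))) * n :=
    mul_le_mul_of_nonneg_right (by linarith) hn0
  have hpos : (0 : ℝ) ≤ (1 - Real.exp (-(5000 * (s : ℝ) ^ 2 / r))) * n := by
    apply mul_nonneg _ hn0
    have h5 : (1 : ℝ) / (8 * 4 ^ K) ≤ 1 := by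
      rw [div_le_one (by positivity)]
      have : (1 : ℝ) ≤ 4 ^ K := one_le_pow₀ (by norm_num)
      linarith
    linarith
  unfold g
  set Z := {m : ℕ | ∀ c : Sym2 (Fin n) → Fin r, ∃ S : Finset (Fin r), S.card = s ∧
    m ≤ {v : Fin n | Covered c S v}.ncard} with hZ
  by_cases hne : Z.Nonempty
  · have hbdd : BddAbove Z := by
      refine ⟨n, ?_⟩
      rintro m hm
      obtain ⟨S, _, hm2⟩ := hm c
      refine le_trans hm2 ?_
      have := Set.ncard_le_ncard (Set.subset_univ {v : Fin n | Covered c S v})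
      rwa [Set.ncard_univ, Nat.card_fin] at this
    obtain ⟨S, hS, hm⟩ := Nat.sSup_mem hne hbdd c
    have : ((sSup Z : ℕ) : ℝ) ≤ {v : Fin n | Covered c S v}.ncard := by exact_mod_cast hm
    linarith [hc S hS]
  · rw [Set.not_nonempty_iff_eq_empty] at hne
    rw [hne, csSup_empty]
    simpa using hpos

/-- **MP_a018d0.** There is an absolute constant `C > 0` such that for every function `s(r)` with
`s(r) / √r → ∞` and `s(r) / √(r log r) → 0`, for all sufficiently large `r` and all `n`
sufficiently large in terms of `r`, `g(n, r, s) ≤ (1 - exp (- C s ^ 2 / r)) n`. -/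
theorem result : ∃ C : ℝ, 0 < C ∧ ∀ s : ℕ → ℕ,
    Tendsto (fun r : ℕ => (s r : ℝ) / Real.sqrt r) atTop atTop →
    Tendsto (fun r : ℕ => (s r : ℝ) / Real.sqrt (r * Real.logb 2 r)) atTop (nhds 0) →
    ∀ᶠ r : ℕ in atTop, ∀ᶠ n : ℕ in atTop,
      (g n r (s r) : ℝ) ≤ (1 - Real.exp (-(C * (s r : ℝ) ^ 2 / r))) * n := by
  refine ⟨5000, by norm_num, ?_⟩
  intro s h1 h2
  have hlog : ∀ᶠ r : ℕ in atTop, Real.log r ≤ (Real.log 2 / 4096) * r := by
    have h3 := Real.isLittleO_log_id_atTop.bound
      (show (0 : ℝ) < Real.log 2 / 4096 from div_pos (Real.log_pos (by norm_num)) (by norm_num))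
    have h4 := tendsto_natCast_atTop_atTop (R := ℝ) |>.eventually h3
    filter_upwards [h4, eventually_ge_atTop 1] with r hr hr1
    have hr1' : (1 : ℝ) ≤ r := by exact_mod_cast hr1
    rw [Real.norm_of_nonneg (Real.log_nonneg hr1')] at hr
    simp only [id] at hr
    rwa [Real.norm_of_nonneg (by linarith)] at hr
  filter_upwards [h1.eventually_ge_atTop 1, h2.eventually_lt_const (show (0 : ℝ) < 1 by norm_num),
    hlog, eventually_ge_atTop 2] with r hr1 hr2 hr3 hr4
  have hr4' : (2 : ℝ) ≤ r := by exact_mod_cast hr4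
  have hr0 : (0 : ℝ) < r := by linarith
  have hsq : 0 < Real.sqrt r := Real.sqrt_pos.mpr hr0
  have hlog2 : 0 < Real.log 2 := Real.log_pos (by norm_num)
  have c1 : r ≤ (s r) ^ 2 := by
    rw [le_div_iff₀ hsq, one_mul] at hr1
    have : (r : ℝ) ≤ (s r : ℝ) ^ 2 := by
      calc (r : ℝ) = Real.sqrt r ^ 2 := (Real.sq_sqrt hr0.le).symm
        _ ≤ (s r : ℝ) ^ 2 := pow_le_pow_left₀ hsq.le hr1 2
    exact_mod_cast this
  have c2 : 64 * s r ≤ r := by
    have hlogb : 0 < Real.logb 2 r := Real.logb_pos (by norm_num) (by linarith)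
    have hsq2 : 0 < Real.sqrt (r * Real.logb 2 r) := Real.sqrt_pos.mpr (mul_pos hr0 hlogb)
    rw [div_lt_iff₀ hsq2, one_mul] at hr2
    have e1 : Real.logb 2 r ≤ r / 4096 := by
      unfold Real.logb
      rw [div_le_iff₀ hlog2]
      linarith
    have e2 : Real.sqrt (r * Real.logb 2 r) ≤ r / 64 := by
      apply Real.sqrt_le_iff.mpr
      constructor
      · positivity
      · nlinarith
    have : (64 : ℝ) * s r ≤ r := by linarith
    exact_mod_cast this
  exact explicit c1 c2 (by omega)

end Pool.Agent.Results.MP_a018d0_co.CoveredUpper
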